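import Pool.Agent.Helper96.EL.Goals

/-!
# Project EL (MP_e44225_nt), packet STEP: one more independent point after a quadratic extension
-/

open NumberField Height Polynomial
open Pool.Agent.Helper96.EL

namespace Pool.Agent.Helper98.EL

universe u

theorem quad_ext (K₀ : Type u) [Field K₀] [NumberField K₀] (d : K₀) (hd : ¬ IsSquare d) :
    ∃ (L : Type u) (_ : Field L) (_ : NumberField L) (_ : Algebra K₀ L) (s : L)
      (σ : L →ₐ[K₀] L), s ^ 2 = algebraMap K₀ L d ∧ σ s = -s := by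
  have hirr : Irreducible (X ^ 2 - C d : K₀[X]) := by
    apply X_pow_sub_C_irreducible_of_prime Nat.prime_two
    intro b hb
    exact hd ⟨b, by rw [← hb]; ring⟩
  have : Fact (Irreducible (X ^ 2 - C d : K₀[X])) := ⟨hirr⟩
  have hmon : (X ^ 2 - C d : K₀[X]).Monic := monic_X_pow_sub_C d (by norm_num)
  have : Module.Finite K₀ (AdjoinRoot (X ^ 2 - C d : K₀[X])) := hmon.finite_adjoinRoot
  have hs : (AdjoinRoot.root (X ^ 2 - C d : K₀[X])) ^ 2 =
      algebraMap K₀ (AdjoinRoot (X ^ 2 - C d : K₀[X])) d := by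
    have := AdjoinRoot.eval₂_root (X ^ 2 - C d : K₀[X])
    rw [eval₂_sub, eval₂_pow, eval₂_X, eval₂_C] at this
    exact sub_eq_zero.mp this
  have he : (X ^ 2 - C d : K₀[X]).eval₂
      ((Algebra.ofId K₀ (AdjoinRoot (X ^ 2 - C d : K₀[X])) :
        K₀ →ₐ[K₀] AdjoinRoot (X ^ 2 - C d : K₀[X])) : K₀ →+* _)
      (-AdjoinRoot.root (X ^ 2 - C d : K₀[X])) = 0 := by
    rw [eval₂_sub, eval₂_pow, eval₂_X, eval₂_C, neg_sq, hs]
    exact sub_self _
  obtain ⟨σ, hσ⟩ : ∃ σ : AdjoinRoot (X ^ 2 - C d : K₀[X]) →ₐ[K₀] AdjoinRoot (X ^ 2 - C d : K₀[X]),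
      σ (AdjoinRoot.root _) = -AdjoinRoot.root _ :=
    ⟨AdjoinRoot.liftAlgHom (X ^ 2 - C d : K₀[X]) (Algebra.ofId K₀ _) (-AdjoinRoot.root _) he,
      AdjoinRoot.liftAlgHom_root _ _ _ _⟩
  exact ⟨AdjoinRoot (X ^ 2 - C d : K₀[X]), inferInstance,
    NumberField.of_module_finite K₀ _, inferInstance, AdjoinRoot.root _, σ, hs, hσ⟩

open WeierstrassCurve WeierstrassCurve.Affine in
theorem step (hNT : NT.{u}) (hNS : NS.{u}) : STEP.{u} := by
  intro k K₀ _ _ _ _ _ W _ n P hP
  obtain ⟨B, hB⟩ := hNT k K₀ W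
  obtain ⟨x, hx, hsq⟩ := hNS K₀ (W.baseChange K₀) B
  obtain ⟨L, hF, hNF, hA, s, σ, hs, hσ⟩ := quad_ext K₀ _ hsq
  let _ : Algebra k L := ((algebraMap K₀ L).comp (algebraMap k K₀)).toAlgebra
  have : IsScalarTower k K₀ L := IsScalarTower.of_algebraMap_eq' rfl
  let _ : DecidableEq L := Classical.decEq L
  have : CharZero L := inferInstance
  have hs0 : s ≠ 0 := by
    intro h
    rw [h] at hs
    have : psi (W.baseChange K₀) x = 0 := by
      have h0 : algebraMap K₀ L (psi (W.baseChange K₀) x) = 0 := by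
        rw [← hs]; ring
      exact (map_eq_zero _).mp h0
    exact hsq ⟨0, by rw [this]; ring⟩
  have hpsi : psi (W.baseChange L) (algebraMap K₀ L x) = s ^ 2 := by
    rw [psi_tower W x, hs]
  obtain ⟨X0, hX0⟩ : ∃ z : L, z = algebraMap K₀ L x := ⟨_, rfl⟩
  obtain ⟨y, hy⟩ : ∃ z : L, z = (s - (W.baseChange L).a₁ * X0 - (W.baseChange L).a₃) / 2 :=
    ⟨_, rfl⟩
  have h2y : 2 * y + (W.baseChange L).a₁ * X0 + (W.baseChange L).a₃ = s := by
    rw [hy]; ring
  have heq : (W.baseChange L).toAffine.Equation X0 y := by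
    rw [WeierstrassCurve.Affine.equation_iff]
    have h4 : (2 * y + (W.baseChange L).a₁ * X0 + (W.baseChange L).a₃) ^ 2 =
        psi (W.baseChange L) X0 := by rw [h2y, hX0, hpsi]
    simp only [psi, WeierstrassCurve.b₂, WeierstrassCurve.b₄, WeierstrassCurve.b₆] at h4
    have h5 : (4 : L) * (y ^ 2 + (W.baseChange L).a₁ * X0 * y + (W.baseChange L).a₃ * y) =
        4 * (X0 ^ 3 + (W.baseChange L).a₂ * X0 ^ 2 + (W.baseChange L).a₄ * X0
          + (W.baseChange L).a₆) := by
      linear_combination h4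
    exact mul_left_cancel₀ (by norm_num) h5
  have hns : (W.baseChange L).toAffine.Nonsingular X0 y := by
    rw [WeierstrassCurve.Affine.nonsingular_iff]
    refine ⟨heq, Or.inr ?_⟩
    intro h
    apply hs0
    rw [← h2y]
    linear_combination h
  let Q : (W.baseChange L).Point := Point.some X0 y hns
  have hσa : ∀ a : k, σ (algebraMap k L a) = algebraMap k L a := by
    intro a
    rw [IsScalarTower.algebraMap_apply k K₀ L]
    exact σ.commutes _
  have hσx : σ X0 = X0 := by rw [hX0]; exact σ.commutes _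
  have ha1 : σ (W.baseChange L).a₁ = (W.baseChange L).a₁ := hσa W.a₁
  have ha3 : σ (W.baseChange L).a₃ = (W.baseChange L).a₃ := hσa W.a₃
  have hσy : σ y = (W.baseChange L).toAffine.negY X0 y := by
    rw [WeierstrassCurve.Affine.negY, hy]
    simp only [map_div₀, map_sub, map_mul, hσ, hσx, ha1, ha3, map_ofNat]
    ring
  have hmapQ : Point.map (W' := W) σ Q = -Q := by
    show Point.map (W' := W) σ (Point.some X0 y hns) = -(Point.some X0 y hns)
    rw [Point.map_some, Point.neg_some]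
    congr 1
  have hQ0 : Q ≠ 0 := Point.some_ne_zero _
  have hnt : ∀ m : ℤ, m ≠ 0 → m • Q ≠ 0 := hB L x Q hx hQ0 hX0
  refine ⟨L, hF, hNF, inferInstance, inferInstance,
    Fin.cons Q (fun i => Point.baseChange K₀ L (P i)), ?_⟩
  rw [Fintype.linearIndependent_iff]
  intro g hg
  rw [Fin.sum_univ_succ] at hg
  simp only [Fin.cons_zero, Fin.cons_succ] at hg
  have hg2 := congrArg (Point.map (W' := W) σ) hg
  rw [map_add, map_sum, map_zsmul, hmapQ, _root_.map_zero] at hg2
  have hfix : ∀ i, Point.map (W' := W) σ (g (Fin.succ i) • Point.baseChange K₀ L (P i)) =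
      g (Fin.succ i) • Point.baseChange K₀ L (P i) := by
    intro i
    rw [map_zsmul, Point.map_baseChange]
  simp only [hfix] at hg2
  have h2 : (2 * g 0) • Q = 0 := by
    have : g 0 • Q + ∑ i, g (Fin.succ i) • Point.baseChange K₀ L (P i)
        - (g 0 • (-Q) + ∑ i, g (Fin.succ i) • Point.baseChange K₀ L (P i)) = 0 := by
      rw [hg, hg2, sub_zero]
    have h3 : (2 * g 0) • Q = g 0 • Q + ∑ i, g (Fin.succ i) • Point.baseChange K₀ L (P i)
        - (g 0 • (-Q) + ∑ i, g (Fin.succ i) • Point.baseChange K₀ L (P i)) := by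
      rw [two_mul, add_smul, smul_neg]
      abel
    rw [h3, this]
  have hg0 : g 0 = 0 := by
    by_contra h
    exact hnt (2 * g 0) (by omega) h2
  rw [hg0, zero_smul, zero_add] at hg
  have h4 : Point.baseChange K₀ L (∑ i, g (Fin.succ i) • P i) = 0 := by
    rw [map_sum, ← hg]
    exact Finset.sum_congr rfl fun i _ => map_zsmul _ _ _
  have h5 : ∑ i, g (Fin.succ i) • P i = 0 := by
    apply Point.map_injective (W' := W) (Algebra.ofId K₀ L)
    rw [_root_.map_zero]
    exact h4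
  have h6 := (Fintype.linearIndependent_iff.mp hP) (fun i => g (Fin.succ i)) h5
  intro i
  rcases Fin.eq_zero_or_eq_succ i with h | ⟨j, h⟩
  · rw [h]; exact hg0
  · rw [h]; exact h6 j

end Pool.Agent.Helper98.EL
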